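import Mathlib

/-!
# The functional equation of the curved critical step (K_C48 (2.1)), with errors

If `τ ↦ f τ (y + τ σ) + s τ * σ` is, for three separated slopes `σ` and all `y`, within `δ` of an
affine function of `τ`, then `f τ z` is within `C δ` of `a + b τ + c z + d τ z` and `s τ` is within
`C δ` of `s₀ + s₁ τ - d τ²`; `C` depends only on the separation of the slopes. The functions are
arbitrary bounded functions (no measurability, the bound does not enter the constant); `δ = 0` is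
the exact form.
-/

set_option autoImplicit false

namespace Pool.KAL

open Set

/-- **FEQ** (three slopes). -/
def FEQStmt : Prop :=
  ∀ c : ℝ, 0 < c → ∃ C : ℝ, 0 < C ∧
    ∀ (f : ℝ → ℝ → ℝ) (s : ℝ → ℝ) (σ : Fin 3 → ℝ) (δ M : ℝ), 0 ≤ δ →
      (∀ i, |σ i| ≤ 1) → (∀ i j, i ≠ j → c ≤ |σ i - σ j|) →
      (∀ τ ∈ Icc (0 : ℝ) 1, ∀ z ∈ Icc (-16 : ℝ) 16, |f τ z| ≤ M) →
      (∀ τ ∈ Icc (0 : ℝ) 1, |s τ| ≤ M) →
      (∀ i, ∀ y ∈ Icc (-14 : ℝ) 14, ∃ a b : ℝ, ∀ τ ∈ Icc (0 : ℝ) 1,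
        |f τ (y + τ * σ i) + s τ * σ i - (a + b * τ)| ≤ δ) →
      ∃ a b c' d s₀ s₁ : ℝ,
        (∀ τ ∈ Icc (0 : ℝ) 1, ∀ z ∈ Icc (-1 : ℝ) 1,
          |f τ z - (a + b * τ + c' * z + d * (τ * z))| ≤ C * δ) ∧
        (∀ τ ∈ Icc (0 : ℝ) 1, |s τ - (s₀ + s₁ * τ - d * τ ^ 2)| ≤ C * δ)

/-- second difference -/
def sd (g : ℝ → ℝ) (x h : ℝ) : ℝ := g (x + 2 * h) - 2 * g (x + h) + g x

/-- Whitney's inequality of order two: a bounded function whose second differences are at most `δ`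
is within `δ` of an affine function. -/
theorem wh2 (g : ℝ → ℝ) (a b δ M : ℝ) (hab : a < b) (hM : ∀ x ∈ Icc a b, |g x| ≤ M)
    (h2 : ∀ x h, x ∈ Icc a b → x + 2 * h ∈ Icc a b → |sd g x h| ≤ δ) :
    ∃ p q : ℝ, ∀ x ∈ Icc a b, |g x - (p + q * x)| ≤ δ := by
  have hba : 0 < b - a := by linarith
  obtain ⟨q, hq⟩ : ∃ q, q = (g b - g a) / (b - a) := ⟨_, rfl⟩
  obtain ⟨u, hu⟩ : ∃ u : ℝ → ℝ, ∀ x, u x = g x - (g a - q * a + q * x) := ⟨_, fun x => rfl⟩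
  refine ⟨g a - q * a, q, fun x hx => ?_⟩
  rw [← hu]
  have hua : u a = 0 := by rw [hu]; ring
  have hub : u b = 0 := by
    rw [hu, hq]
    field_simp
    ring
  have hsd : ∀ x h, u (x + 2 * h) - 2 * u (x + h) + u x = sd g x h := by
    intro x h
    rw [hu, hu, hu, sd]
    ring
  have key : ∀ K, (∀ x ∈ Icc a b, |u x| ≤ K) → ∀ x ∈ Icc a b, |u x| ≤ (δ + K) / 2 := by
    intro K hK x hx
    rcases le_total x ((a + b) / 2) with h | h
    · have h1 := hsd a (x - a)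
      have h3 : a + 2 * (x - a) ∈ Icc a b := ⟨by linarith [hx.1], by linarith⟩
      have h4 := h2 a (x - a) ⟨le_rfl, hab.le⟩ h3
      rw [← h1, hua, show a + (x - a) = x by ring] at h4
      have h5 := hK _ h3
      rw [abs_le] at h4 h5 ⊢
      constructor <;> linarith [h4.1, h4.2, h5.1, h5.2]
    · have h1 := hsd b (x - b)
      have h3 : b + 2 * (x - b) ∈ Icc a b := ⟨by linarith, by linarith [hx.2]⟩
      have h4 := h2 b (x - b) ⟨hab.le, le_rfl⟩ h3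
      rw [← h1, hub, show b + (x - b) = x by ring] at h4
      have h5 := hK _ h3
      rw [abs_le] at h4 h5 ⊢
      constructor <;> linarith [h4.1, h4.2, h5.1, h5.2]
  have hbd : ∃ K, ∀ x ∈ Icc a b, |u x| ≤ K := by
    refine ⟨M + (|g a - q * a| + |q| * (|a| + |b|)), fun x hx => ?_⟩
    rw [hu]
    have h1 := hM x hx
    have h3 : |x| ≤ |a| + |b| := by
      rw [abs_le]
      have := neg_abs_le a
      have := le_abs_self b
      have := abs_nonneg a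
      have := abs_nonneg b
      constructor <;> linarith [hx.1, hx.2]
    calc |g x - (g a - q * a + q * x)| ≤ |g x| + |g a - q * a + q * x| := abs_sub _ _
      _ ≤ |g x| + (|g a - q * a| + |q * x|) := by gcongr; exact abs_add_le _ _
      _ ≤ M + (|g a - q * a| + |q| * (|a| + |b|)) := by
          rw [abs_mul]; gcongr
  obtain ⟨K, hK⟩ := hbd
  have hit : ∀ n : ℕ, ∀ x ∈ Icc a b, |u x| ≤ δ + (K - δ) / 2 ^ n := by
    intro n
    induction n with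
    | zero => intro x hx; simpa using hK x hx
    | succ n ih =>
      intro x hx
      have := key _ ih x hx
      refine this.trans (le_of_eq ?_)
      rw [pow_succ]
      field_simp
      ring
  have hlim : Filter.Tendsto (fun n : ℕ => δ + (K - δ) / 2 ^ n) Filter.atTop (nhds (δ + 0)) := by
    refine Filter.Tendsto.add tendsto_const_nhds ?_
    have h0 : Filter.Tendsto (fun n : ℕ => (K - δ) * (1 / 2 : ℝ) ^ n) Filter.atTop
        (nhds ((K - δ) * 0)) :=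
      (tendsto_pow_atTop_nhds_zero_of_lt_one (by norm_num) (by norm_num)).const_mul _
    rw [mul_zero] at h0
    refine h0.congr fun n => ?_
    rw [one_div, inv_pow, div_eq_mul_inv]
  rw [add_zero] at hlim
  exact ge_of_tendsto' hlim fun n => hit n x hx

/-- second differences with the step `N h` from second differences with the step `h` -/
theorem sd_mul (g : ℝ → ℝ) (x h δ : ℝ) (N : ℕ)
    (H : ∀ k : ℕ, k + 2 ≤ 2 * N → |sd g (x + k * h) h| ≤ δ) :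
    |sd g x (N * h)| ≤ (N : ℝ) ^ 2 * δ := by
  have h1 : ∀ i : ℕ, ∑ j ∈ Finset.range N, sd g (x + ((i + j : ℕ) : ℝ) * h) h =
      (g (x + ((i + N : ℕ) + 1 : ℝ) * h) - g (x + ((i + N : ℕ) : ℝ) * h)) -
      (g (x + ((i : ℝ) + 1) * h) - g (x + (i : ℝ) * h)) := by
    intro i
    have h2 := Finset.sum_range_sub
      (fun j : ℕ => g (x + ((i + j : ℕ) + 1 : ℝ) * h) - g (x + ((i + j : ℕ) : ℝ) * h)) N
    simp only [add_zero] at h2
    rw [← h2]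
    refine Finset.sum_congr rfl fun j _ => ?_
    rw [sd]
    have e1 : x + ((i + j : ℕ) : ℝ) * h + 2 * h = x + (((i + (j + 1) : ℕ) : ℝ) + 1) * h := by
      push_cast; ring
    have e2 : x + ((i + j : ℕ) : ℝ) * h + h = x + (((i + j : ℕ) : ℝ) + 1) * h := by
      push_cast; ring
    have e3 : x + ((i + (j + 1) : ℕ) : ℝ) * h = x + (((i + j : ℕ) : ℝ) + 1) * h := by
      push_cast; ring
    rw [e1, e2, e3]
    ring
  have h2 : ∑ i ∈ Finset.range N, ∑ j ∈ Finset.range N, sd g (x + ((i + j : ℕ) : ℝ) * h) h =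
      sd g x (N * h) := by
    rw [Finset.sum_congr rfl fun i _ => h1 i, Finset.sum_sub_distrib]
    have h3 := Finset.sum_range_sub (fun i : ℕ => g (x + ((i + N : ℕ) : ℝ) * h)) N
    have h4 := Finset.sum_range_sub (fun i : ℕ => g (x + (i : ℝ) * h)) N
    have e5 : ∑ i ∈ Finset.range N,
        (g (x + ((i + N : ℕ) + 1 : ℝ) * h) - g (x + ((i + N : ℕ) : ℝ) * h)) =
        ∑ i ∈ Finset.range N,
        (g (x + (((i + 1) + N : ℕ) : ℝ) * h) - g (x + ((i + N : ℕ) : ℝ) * h)) := by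
      refine Finset.sum_congr rfl fun i _ => ?_
      have : x + ((i + N : ℕ) + 1 : ℝ) * h = x + (((i + 1) + N : ℕ) : ℝ) * h := by
        push_cast; ring
      rw [this]
    have e6 : ∑ i ∈ Finset.range N,
        (g (x + ((i : ℝ) + 1) * h) - g (x + (i : ℝ) * h)) =
        ∑ i ∈ Finset.range N,
        (g (x + ((i + 1 : ℕ) : ℝ) * h) - g (x + (i : ℝ) * h)) := by
      refine Finset.sum_congr rfl fun i _ => ?_
      have : x + ((i : ℝ) + 1) * h = x + ((i + 1 : ℕ) : ℝ) * h := by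
        push_cast; ring
      rw [this]
    rw [e5, e6, h3, h4, sd]
    have e7 : x + ((N + N : ℕ) : ℝ) * h = x + 2 * (N * h) := by push_cast; ring
    have e8 : x + ((0 + N : ℕ) : ℝ) * h = x + N * h := by push_cast; ring
    have e9 : x + ((0 : ℕ) : ℝ) * h = x := by push_cast; ring
    rw [e7, e8, e9]
    ring
  rw [← h2]
  calc |∑ i ∈ Finset.range N, ∑ j ∈ Finset.range N, sd g (x + ((i + j : ℕ) : ℝ) * h) h|
      ≤ ∑ i ∈ Finset.range N, |∑ j ∈ Finset.range N, sd g (x + ((i + j : ℕ) : ℝ) * h) h| :=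
        Finset.abs_sum_le_sum_abs _ _
    _ ≤ ∑ i ∈ Finset.range N, ∑ j ∈ Finset.range N, |sd g (x + ((i + j : ℕ) : ℝ) * h) h| :=
        Finset.sum_le_sum fun i _ => Finset.abs_sum_le_sum_abs _ _
    _ ≤ ∑ i ∈ Finset.range N, ∑ j ∈ Finset.range N, δ := by
        refine Finset.sum_le_sum fun i hi => Finset.sum_le_sum fun j hj => H _ ?_
        rw [Finset.mem_range] at hi hj
        omega
    _ = (N : ℝ) ^ 2 * δ := by
        rw [Finset.sum_const, Finset.sum_const, Finset.card_range, nsmul_eq_mul, nsmul_eq_mul]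
        ring

/-- Whitney's inequality from small steps -/
theorem wh2s (g : ℝ → ℝ) (a b δ M h₀ : ℝ) (N : ℕ) (hab : a < b)
    (hM : ∀ x ∈ Icc a b, |g x| ≤ M) (hN : b - a ≤ 2 * N * h₀)
    (h2 : ∀ x h, |h| ≤ h₀ → x ∈ Icc a b → x + 2 * h ∈ Icc a b → |sd g x h| ≤ δ) :
    ∃ p q : ℝ, ∀ x ∈ Icc a b, |g x - (p + q * x)| ≤ (N : ℝ) ^ 2 * δ := by
  have hN0 : 0 < N := by
    rcases Nat.eq_zero_or_pos N with h | h
    · subst h
      simp at hN
      linarith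
    · exact h
  have hN1 : (0 : ℝ) < N := by exact_mod_cast hN0
  refine wh2 g a b _ M hab hM fun x h hx hxh => ?_
  have e : h = N * (h / N) := by field_simp
  rw [e]
  refine sd_mul g x (h / N) δ N fun k hk => h2 _ _ ?_ ?_ ?_
  · rw [abs_div, abs_of_pos hN1, div_le_iff₀ hN1]
    rw [abs_le]
    constructor <;> nlinarith [hx.1, hx.2, hxh.1, hxh.2]
  · have hk' : (k : ℝ) + 2 ≤ 2 * N := by exact_mod_cast hk
    have h3 : x + k * (h / N) = (1 - k / (2 * N)) * x + (k / (2 * N)) * (x + 2 * h) := by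
      field_simp
      ring
    have h4 : (0 : ℝ) ≤ k / (2 * N) := by positivity
    have h5 : (k : ℝ) / (2 * N) ≤ 1 := by rw [div_le_one (by positivity)]; linarith
    rw [h3]
    constructor <;> nlinarith [hx.1, hx.2, hxh.1, hxh.2]
  · have hk' : (k : ℝ) + 2 ≤ 2 * N := by exact_mod_cast hk
    have h3 : x + k * (h / N) + 2 * (h / N) =
        (1 - (k + 2) / (2 * N)) * x + ((k + 2) / (2 * N)) * (x + 2 * h) := by
      field_simp
      ring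
    have h4 : (0 : ℝ) ≤ (k + 2) / (2 * N) := by positivity
    have h5 : ((k : ℝ) + 2) / (2 * N) ≤ 1 := by rw [div_le_one (by positivity)]; linarith
    rw [h3]
    constructor <;> nlinarith [hx.1, hx.2, hxh.1, hxh.2]

/-- first part of the core: the second coefficient is affine -/
theorem feq_B (c : ℝ) (hc : 0 < c) (hc2 : c ≤ 2) (N : ℕ) (hN : 128 ≤ N * c)
    (A B s : ℝ → ℝ) (ρ : Fin 2 → ℝ) (δ M : ℝ) (hρ : ∀ i, |ρ i| ≤ 2)
    (hρc : ∀ i, c ≤ |ρ i|) (hρρ : c ≤ |ρ 0 - ρ 1|)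
    (hB : ∀ z ∈ Icc (-14 : ℝ) 14, |B z| ≤ M)
    (HE : ∀ i, ∀ z ∈ Icc (-10 : ℝ) 10, ∀ τ t : ℝ, τ ∈ Icc (0 : ℝ) 1 → τ + 2 * t ∈ Icc (0 : ℝ) 1 →
      |sd A z (t * ρ i) + τ * sd B z (t * ρ i) +
        2 * t * (B (z + 2 * (t * ρ i)) - B (z + t * ρ i)) + ρ i * sd s τ t| ≤ 4 * δ) :
    ∃ b d : ℝ, ∀ z ∈ Icc (-8 : ℝ) 8, |B z - (b + d * z)| ≤ (N : ℝ) ^ 2 * (1024 / c ^ 2 * δ) := by
  have hne : ∀ i, ρ i ≠ 0 := fun i h => by
    have := hρc i
    rw [h, abs_zero] at this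
    linarith
  have habs : ∀ i, ∀ w : ℝ, |w| ≤ c / 8 → |w / ρ i| ≤ 1 / 8 := by
    intro i w hw
    rw [abs_div, div_le_iff₀ (abs_pos.2 (hne i))]
    have := hρc i
    linarith
  -- increments of B at a step w
  have HG : ∀ z h w : ℝ, z ∈ Icc (-9 : ℝ) 9 → z + h ∈ Icc (-9 : ℝ) 9 → c / 16 ≤ |w| →
      |w| ≤ c / 8 → |(B (z + h + w) - B (z + w)) - (B (z + h) - B z)| ≤ 512 / c ^ 2 * δ := by
    intro z h w hz hzh hw1 hw2
    have hw3 : |w| ≤ 1 / 4 := by linarith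
    rw [abs_le] at hw3
    have hz1 : z - w ∈ Icc (-10 : ℝ) 10 := ⟨by linarith [hz.1, hw3.2], by linarith [hz.2, hw3.1]⟩
    have hz2 : z - w + h ∈ Icc (-10 : ℝ) 10 :=
      ⟨by linarith [hzh.1, hw3.2], by linarith [hzh.2, hw3.1]⟩
    have hE : ∀ i, |(sd A (z - w + h) w - sd A (z - w) w) +
        (1 / 2) * (sd B (z - w + h) w - sd B (z - w) w) +
        2 * (w / ρ i) * ((B (z + h + w) - B (z + w)) - (B (z + h) - B z))| ≤ 8 * δ := by
      intro i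
      have ht := habs i w hw2
      rw [abs_le] at ht
      have hτ : (1 / 2 : ℝ) ∈ Icc (0 : ℝ) 1 := ⟨by norm_num, by norm_num⟩
      have hτ2 : (1 / 2 : ℝ) + 2 * (w / ρ i) ∈ Icc (0 : ℝ) 1 :=
        ⟨by linarith [ht.1], by linarith [ht.2]⟩
      have e1 := HE i _ hz1 (1 / 2) (w / ρ i) hτ hτ2
      have e2 := HE i _ hz2 (1 / 2) (w / ρ i) hτ hτ2
      have e3 : w / ρ i * ρ i = w := div_mul_cancel₀ _ (hne i)
      rw [e3] at e1 e2
      rw [show z - w + 2 * w = z + w by ring, show z - w + w = z by ring] at e1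
      rw [show z - w + h + 2 * w = z + h + w by ring, show z - w + h + w = z + h by ring] at e2
      rw [abs_le] at e1 e2 ⊢
      constructor <;> linarith [e1.1, e1.2, e2.1, e2.2]
    obtain ⟨X, hX⟩ : ∃ X, X = (B (z + h + w) - B (z + w)) - (B (z + h) - B z) := ⟨_, rfl⟩
    have h0 := hE 0
    have h1 := hE 1
    rw [← hX] at h0 h1 ⊢
    have h2 : |2 * (w / ρ 0 - w / ρ 1) * X| ≤ 16 * δ := by
      rw [abs_le] at h0 h1 ⊢
      constructor <;> linarith [h0.1, h0.2, h1.1, h1.2]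
    have h3 : w / ρ 0 - w / ρ 1 = w * (ρ 1 - ρ 0) / (ρ 0 * ρ 1) := by
      have := hne 0
      have := hne 1
      field_simp
    have h4 : c ^ 2 / 64 ≤ |w / ρ 0 - w / ρ 1| := by
      rw [h3, abs_div, abs_mul, abs_mul, abs_sub_comm (ρ 1) (ρ 0),
        le_div_iff₀ (mul_pos (abs_pos.2 (hne 0)) (abs_pos.2 (hne 1)))]
      have a1 := hρ 0
      have a2 := hρ 1
      have a3 := abs_nonneg (ρ 0)
      have a4 := abs_nonneg (ρ 1)
      have a5 : |ρ 0| * |ρ 1| ≤ 4 := by nlinarith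
      have a6 : c / 16 * c ≤ |w| * |ρ 0 - ρ 1| :=
        mul_le_mul hw1 hρρ hc.le (abs_nonneg _)
      have a7 : c ^ 2 / 64 * (|ρ 0| * |ρ 1|) ≤ c ^ 2 / 64 * 4 := by
        gcongr
      nlinarith
    rw [abs_mul, abs_mul, abs_two] at h2
    have h5 : c ^ 2 / 64 * |X| ≤ |w / ρ 0 - w / ρ 1| * |X| :=
      mul_le_mul_of_nonneg_right h4 (abs_nonneg _)
    have h6 : c ^ 2 * |X| ≤ 512 * δ := by nlinarith
    rw [div_mul_eq_mul_div, le_div_iff₀ (by positivity)]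
    linarith
  refine wh2s B (-8) 8 (1024 / c ^ 2 * δ) M (c / 16) N (by norm_num)
    (fun x hx => hB x ⟨by linarith [hx.1], by linarith [hx.2]⟩) (by linarith) ?_
  intro x h hh hx hxh
  have hh' := abs_le.1 hh
  have hx9 : x ∈ Icc (-9 : ℝ) 9 := ⟨by linarith [hx.1], by linarith [hx.2]⟩
  have hxh9 : x + h ∈ Icc (-9 : ℝ) 9 :=
    ⟨by linarith [hx.1, hx.2, hh'.1, hh'.2], by linarith [hx.1, hx.2, hh'.1, hh'.2]⟩
  have hx2h9 : x + 2 * h ∈ Icc (-9 : ℝ) 9 := ⟨by linarith [hxh.1], by linarith [hxh.2]⟩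
  have hsd : sd B x h = (B (x + h + h) - B (x + h)) - (B (x + h) - B x) := by
    rw [sd, show x + 2 * h = x + h + h by ring]
    ring
  rw [hsd]
  have h1024 : (1024 : ℝ) / c ^ 2 * δ = 512 / c ^ 2 * δ + 512 / c ^ 2 * δ := by ring
  rw [h1024]
  rcases le_total 0 h with h0 | h0
  · -- go down by c/8 - h, then up by c/8
    have k1 := HG x h (h - c / 8) hx9 hxh9
      (by rw [abs_of_nonpos (by linarith [hh'.2])]; linarith [hh'.2])
      (by rw [abs_of_nonpos (by linarith [hh'.2])]; linarith)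
    have k2 := HG (x + (h - c / 8)) h (c / 8)
      ⟨by linarith [hx.1], by linarith [hx.2]⟩ ⟨by linarith [hxh.1], by linarith [hxh.2]⟩
      (by rw [abs_of_pos (by linarith)]; linarith) (by rw [abs_of_pos (by linarith)])
    rw [show x + h + (h - c / 8) = x + (h - c / 8) + h by ring] at k1
    rw [show x + (h - c / 8) + h + c / 8 = x + h + h by ring,
      show x + (h - c / 8) + c / 8 = x + h by ring] at k2
    rw [abs_le] at k1 k2 ⊢
    constructor <;> linarith [k1.1, k1.2, k2.1, k2.2]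
  · have k1 := HG x h (h + c / 8) hx9 hxh9
      (by rw [abs_of_nonneg (by linarith [hh'.1])]; linarith [hh'.1])
      (by rw [abs_of_nonneg (by linarith [hh'.1])]; linarith)
    have k2 := HG (x + (h + c / 8)) h (-(c / 8))
      ⟨by linarith [hx.1, hh'.1], by linarith [hx.2]⟩ ⟨by linarith [hxh.1], by linarith [hxh.2]⟩
      (by rw [abs_neg, abs_of_pos (by linarith)]; linarith)
      (by rw [abs_neg, abs_of_pos (by linarith)])
    rw [show x + h + (h + c / 8) = x + (h + c / 8) + h by ring] at k1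
    rw [show x + (h + c / 8) + h + -(c / 8) = x + h + h by ring,
      show x + (h + c / 8) + -(c / 8) = x + h by ring] at k2
    rw [abs_le] at k1 k2 ⊢
    constructor <;> linarith [k1.1, k1.2, k2.1, k2.2]

theorem sd_affine (g : ℝ → ℝ) (p q κ x h : ℝ) (h0 : |g x - (p + q * x)| ≤ κ)
    (h1 : |g (x + h) - (p + q * (x + h))| ≤ κ)
    (h2 : |g (x + 2 * h) - (p + q * (x + 2 * h))| ≤ κ) : |sd g x h| ≤ 4 * κ := by
  rw [sd]
  rw [abs_le] at h0 h1 h2 ⊢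
  constructor <;> linarith [h0.1, h0.2, h1.1, h1.2, h2.1, h2.2]

/-- second part of the core: `A` and `S` are affine once `B` is -/
theorem feq_A (c : ℝ) (hc : 0 < c) (hc2 : c ≤ 2) (N : ℕ) (hN : 128 ≤ N * c)
    (A S : ℝ → ℝ) (ρ : Fin 2 → ℝ) (δ M : ℝ) (hδ : 0 ≤ δ) (hρ : ∀ i, |ρ i| ≤ 2)
    (hρc : ∀ i, c ≤ |ρ i|) (hρρ : c ≤ |ρ 0 - ρ 1|)
    (hA : ∀ z ∈ Icc (-14 : ℝ) 14, |A z| ≤ M) (hS : ∀ τ ∈ Icc (0 : ℝ) 1, |S τ| ≤ M)
    (HJ : ∀ i, ∀ z ∈ Icc (-6 : ℝ) 6, ∀ τ t : ℝ, τ ∈ Icc (0 : ℝ) 1 → τ + 2 * t ∈ Icc (0 : ℝ) 1 →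
      |sd A z (t * ρ i) + ρ i * sd S τ t| ≤ δ) :
    ∃ K : ℝ, K = 4 * (3 + 12 * (N : ℝ) ^ 2) / ((c / 16) ^ 2 * c ^ 3) + 12 * (N : ℝ) ^ 2 + 2 ∧
    (∃ a c' : ℝ, ∀ z ∈ Icc (-2 : ℝ) 2, |A z - (a + c' * z)| ≤ (N : ℝ) ^ 2 * (K * δ)) ∧
    (∃ s₀ s₁ : ℝ, ∀ τ ∈ Icc (0 : ℝ) 1,
      |S τ - (s₀ + s₁ * τ)| ≤ (N : ℝ) ^ 2 * ((1 + K) / c * δ)) := by
  have hne : ∀ i, ρ i ≠ 0 := fun i h => by
    have := hρc i
    rw [h, abs_zero] at this
    linarith
  have habs : ∀ i, ∀ w : ℝ, |w| ≤ c / 8 → |w / ρ i| ≤ 1 / 8 := by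
    intro i w hw
    rw [abs_div, div_le_iff₀ (abs_pos.2 (hne i))]
    have := hρc i
    linarith
  have hcc : ∀ w : ℝ, |w| ≤ c / 8 → |w| ≤ 1 / 4 := fun w hw => by linarith
  -- (K) the second difference of A with a small step does not depend on the place
  have HK : ∀ z z' w : ℝ, z ∈ Icc (-6 : ℝ) 6 → z' ∈ Icc (-6 : ℝ) 6 → |w| ≤ c / 8 →
      |sd A z w - sd A z' w| ≤ 2 * δ := by
    intro z z' w hz hz' hw
    have ht := abs_le.1 (habs 0 w hw)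
    have hτ : (1 / 2 : ℝ) ∈ Icc (0 : ℝ) 1 := ⟨by norm_num, by norm_num⟩
    have hτ2 : (1 / 2 : ℝ) + 2 * (w / ρ 0) ∈ Icc (0 : ℝ) 1 :=
      ⟨by linarith [ht.1], by linarith [ht.2]⟩
    have e1 := HJ 0 z hz (1 / 2) (w / ρ 0) hτ hτ2
    have e2 := HJ 0 z' hz' (1 / 2) (w / ρ 0) hτ hτ2
    rw [div_mul_cancel₀ _ (hne 0)] at e1 e2
    rw [abs_le] at e1 e2 ⊢
    constructor <;> linarith [e1.1, e1.2, e2.1, e2.2]
  -- (L) increments of A are affine
  have HL : ∀ h ∈ Icc (0 : ℝ) 1, ∃ lam μ : ℝ, ∀ z ∈ Icc (0 : ℝ) 1,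
      |(A (z + h) - A z) - (lam + μ * z)| ≤ (N : ℝ) ^ 2 * (2 * δ) := by
    intro h hh
    refine wh2s (fun z => A (z + h) - A z) 0 1 (2 * δ) (M + M) (c / 8) N (by norm_num)
      (fun x hx => ?_) (by nlinarith) ?_
    · have k1 := hA (x + h) ⟨by linarith [hx.1, hh.1], by linarith [hx.2, hh.2]⟩
      have k2 := hA x ⟨by linarith [hx.1], by linarith [hx.2]⟩
      exact (abs_sub _ _).trans (add_le_add k1 k2)
    · intro x w hw hx hxw
      have e1 := HK (x + h) x w ⟨by linarith [hx.1, hh.1], by linarith [hx.2, hh.2]⟩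
        ⟨by linarith [hx.1], by linarith [hx.2]⟩ hw
      have e2 : sd (fun z => A (z + h) - A z) x w = sd A (x + h) w - sd A x w := by
        simp only [sd]
        rw [show x + 2 * w + h = x + h + 2 * w by ring, show x + w + h = x + h + w by ring]
        ring
      rw [e2]
      exact e1
  choose! lam μ hlm using HL
  obtain ⟨m, hm⟩ : ∃ m, m = μ 1 := ⟨_, rfl⟩
  obtain ⟨E, hE⟩ : ∃ E, E = (N : ℝ) ^ 2 * (2 * δ) := ⟨_, rfl⟩
  have hE0 : 0 ≤ E := by rw [hE]; positivity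
  rw [← hE] at hlm
  have HM : ∀ h ∈ Icc (0 : ℝ) 1, |sd A 0 h - m * h ^ 2| ≤ 6 * E := by
    intro h hh
    have z0 : (0 : ℝ) ∈ Icc (0 : ℝ) 1 := ⟨le_rfl, zero_le_one⟩
    have z1 : (1 : ℝ) ∈ Icc (0 : ℝ) 1 := ⟨zero_le_one, le_rfl⟩
    have e1 := hlm h hh h hh
    have e2 := hlm h hh 0 z0
    have e3 := hlm h hh 1 z1
    have e4 := hlm 1 z1 h hh
    have e5 := hlm 1 z1 0 z0
    rw [zero_add] at e2 e5
    rw [← hm] at e4 e5
    have e6 : |μ h - m * h| ≤ 4 * E := by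
      rw [show (1 : ℝ) + h = h + 1 by ring] at e3
      rw [abs_le] at e2 e3 e4 e5 ⊢
      constructor <;> linarith [e2.1, e2.2, e3.1, e3.2, e4.1, e4.2, e5.1, e5.2]
    have e7 : |h * (μ h - m * h)| ≤ 4 * E := by
      rw [abs_mul, abs_of_nonneg hh.1]
      nlinarith [hh.1, hh.2, abs_nonneg (μ h - m * h)]
    rw [sd, show (0 : ℝ) + 2 * h = h + h by ring, zero_add]
    rw [abs_le] at e1 e2 e7 ⊢
    constructor <;> nlinarith [e1.1, e1.2, e2.1, e2.2, e7.1, e7.2]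
  -- second differences of A with a small step, everywhere
  have HM2 : ∀ z ∈ Icc (-6 : ℝ) 6, ∀ h, |h| ≤ c / 8 → |sd A z h - m * h ^ 2| ≤ 2 * δ + 6 * E := by
    intro z hz h hh
    have h4 := hcc h hh
    rcases le_total 0 h with h0 | h0
    · rw [abs_of_nonneg h0] at h4
      have e1 := HK z 0 h hz ⟨by norm_num, by norm_num⟩ hh
      have e2 := HM h ⟨h0, by linarith⟩
      rw [abs_le] at e1 e2 ⊢
      constructor <;> linarith [e1.1, e1.2, e2.1, e2.2]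
    · rw [abs_of_nonpos h0] at h4
      have e1 := HK z (2 * -h) h hz ⟨by linarith, by linarith⟩ hh
      have e2 := HM (-h) ⟨by linarith, by linarith⟩
      have e3 : sd A (2 * -h) h = sd A 0 (-h) := by
        simp only [sd]
        rw [show 2 * -h + 2 * h = 0 by ring, show 2 * -h + h = 0 + -h by ring,
          show (0 : ℝ) + 2 * -h = 2 * -h by ring]
        ring
      rw [e3] at e1
      rw [neg_sq] at e2
      rw [abs_le] at e1 e2 ⊢
      constructor <;> linarith [e1.1, e1.2, e2.1, e2.2]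
  -- the quadratic coefficient is small
  obtain ⟨t, ht⟩ : ∃ t, t = c / 16 := ⟨_, rfl⟩
  have ht0 : 0 < t := by rw [ht]; positivity
  have hm2 : |m| * (t ^ 2 * c ^ 3) ≤ 4 * (3 * δ + 6 * E) := by
    have e : ∀ i, |m * (t * ρ i) ^ 2 + ρ i * sd S 0 t| ≤ 3 * δ + 6 * E := by
      intro i
      have e1 := HJ i 0 ⟨by norm_num, by norm_num⟩ 0 t ⟨le_rfl, zero_le_one⟩
        ⟨by linarith, by linarith⟩
      have e2 := HM2 0 ⟨by norm_num, by norm_num⟩ (t * ρ i)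
        (by rw [abs_mul, abs_of_pos ht0]; have := hρ i; nlinarith [abs_nonneg (ρ i)])
      rw [abs_le] at e1 e2 ⊢
      constructor <;> linarith [e1.1, e1.2, e2.1, e2.2]
    have e0 := e 0
    have e1 := e 1
    have g0 : |ρ 1 * (m * (t * ρ 0) ^ 2 + ρ 0 * sd S 0 t)| ≤ 2 * (3 * δ + 6 * E) := by
      rw [abs_mul]
      exact mul_le_mul (hρ 1) e0 (abs_nonneg _) (by norm_num)
    have g1 : |ρ 0 * (m * (t * ρ 1) ^ 2 + ρ 1 * sd S 0 t)| ≤ 2 * (3 * δ + 6 * E) := by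
      rw [abs_mul]
      exact mul_le_mul (hρ 0) e1 (abs_nonneg _) (by norm_num)
    have g2 : |m * (t ^ 2 * (ρ 0 * ρ 1 * (ρ 0 - ρ 1)))| ≤ 4 * (3 * δ + 6 * E) := by
      have : m * (t ^ 2 * (ρ 0 * ρ 1 * (ρ 0 - ρ 1))) =
          ρ 1 * (m * (t * ρ 0) ^ 2 + ρ 0 * sd S 0 t) -
          ρ 0 * (m * (t * ρ 1) ^ 2 + ρ 1 * sd S 0 t) := by ring
      rw [this]
      refine (abs_sub _ _).trans ?_
      linarith
    rw [abs_mul, abs_mul, abs_mul, abs_mul, abs_of_pos (pow_pos ht0 2)] at g2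
    have g3 : c * c * c ≤ |ρ 0| * |ρ 1| * |ρ 0 - ρ 1| :=
      mul_le_mul (mul_le_mul (hρc 0) (hρc 1) hc.le (abs_nonneg _)) hρρ hc.le
        (mul_nonneg (abs_nonneg _) (abs_nonneg _))
    have g4 : |m| * (t ^ 2 * c ^ 3) ≤ |m| * (t ^ 2 * (|ρ 0| * |ρ 1| * |ρ 0 - ρ 1|)) := by
      refine mul_le_mul_of_nonneg_left ?_ (abs_nonneg _)
      refine mul_le_mul_of_nonneg_left ?_ (by positivity)
      calc c ^ 3 = c * c * c := by ring
        _ ≤ _ := g3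
    linarith
  obtain ⟨K, hK⟩ : ∃ K : ℝ, K = 4 * (3 + 12 * (N : ℝ) ^ 2) / ((c / 16) ^ 2 * c ^ 3) +
      12 * (N : ℝ) ^ 2 + 2 := ⟨_, rfl⟩
  have hm3 : |m| ≤ 4 * (3 + 12 * (N : ℝ) ^ 2) / ((c / 16) ^ 2 * c ^ 3) * δ := by
    rw [div_mul_eq_mul_div, le_div_iff₀ (by positivity), ← ht]
    rw [hE] at hm2
    linarith
  have HO : ∀ z ∈ Icc (-6 : ℝ) 6, ∀ h, |h| ≤ c / 8 → |sd A z h| ≤ K * δ := by
    intro z hz h hh
    have e1 := HM2 z hz h hh
    have h4 := hcc h hh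
    have e2 : |m * h ^ 2| ≤ |m| := by
      rw [abs_mul, abs_of_nonneg (sq_nonneg h), ← sq_abs h]
      have : |h| ^ 2 ≤ 1 := by nlinarith [abs_nonneg h]
      nlinarith [abs_nonneg m]
    have e3 : K * δ = 4 * (3 + 12 * (N : ℝ) ^ 2) / ((c / 16) ^ 2 * c ^ 3) * δ +
      6 * E + 2 * δ := by rw [hK, hE]; ring
    rw [e3]
    rw [abs_le] at e1 e2 ⊢
    constructor <;> linarith [e1.1, e1.2, e2.1, e2.2]
  refine ⟨K, hK, ?_, ?_⟩
  · refine wh2s A (-2) 2 (K * δ) M (c / 8) N (by norm_num)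
      (fun x hx => hA x ⟨by linarith [hx.1], by linarith [hx.2]⟩) (by nlinarith) ?_
    intro x h hh hx hxh
    exact HO x ⟨by linarith [hx.1], by linarith [hx.2]⟩ h hh
  · refine wh2s S 0 1 ((1 + K) / c * δ) M (c / 16) N (by norm_num) hS (by nlinarith) ?_
    intro τ t' ht' hτ hτt
    have hr := hρ 0
    have e1 := HJ 0 0 ⟨by norm_num, by norm_num⟩ τ t' hτ hτt
    have e2 := HO 0 ⟨by norm_num, by norm_num⟩ (t' * ρ 0) (by
      rw [abs_mul]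
      nlinarith [abs_nonneg (ρ 0), abs_nonneg t'])
    have e3 : |ρ 0 * sd S τ t'| ≤ (1 + K) * δ := by
      rw [abs_le] at e1 e2 ⊢
      constructor <;> linarith [e1.1, e1.2, e2.1, e2.2]
    rw [abs_mul] at e3
    rw [div_mul_eq_mul_div, le_div_iff₀ hc]
    have := hρc 0
    nlinarith [abs_nonneg (sd S τ t')]

theorem feq_thm : FEQStmt := by
  intro c hc
  rcases lt_or_ge 2 c with hc2 | hc2
  · refine ⟨1, one_pos, fun f s σ δ M _ hσ hσc => ?_⟩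
    exfalso
    have h1 := hσc 0 1 (by decide)
    have h2 := abs_sub (σ 0) (σ 1)
    have h3 := hσ 0
    have h4 := hσ 1
    linarith
  obtain ⟨N, hN'⟩ := exists_nat_ge (128 / c)
  have hN : 128 ≤ N * c := by
    rw [div_le_iff₀ hc] at hN'
    exact hN'
  obtain ⟨K, hK⟩ : ∃ K : ℝ, K = 4 * (3 + 12 * (N : ℝ) ^ 2) / ((c / 16) ^ 2 * c ^ 3) +
      12 * (N : ℝ) ^ 2 + 2 := ⟨_, rfl⟩
  obtain ⟨k, hk⟩ : ∃ k : ℝ, k = (N : ℝ) ^ 2 * (1024 / c ^ 2) := ⟨_, rfl⟩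
  have hK0 : 0 ≤ K := by rw [hK]; positivity
  have hk0 : 0 ≤ k := by rw [hk]; positivity
  refine ⟨1 + 2 * k + (N : ℝ) ^ 2 * (K * (8 + 12 * k)) +
    (N : ℝ) ^ 2 * ((1 + K) / c * (8 + 12 * k)), by positivity, ?_⟩
  intro f s σ δ M hδ hσ hσc hf hs H
  have H0 := H 0
  choose! A B hAB using H0
  obtain ⟨ρ, hρdef⟩ : ∃ ρ : Fin 2 → ℝ, ∀ i, ρ i = σ i.succ - σ 0 := ⟨_, fun i => rfl⟩
  have hρ : ∀ i, |ρ i| ≤ 2 := fun i => by
    rw [hρdef]
    have := abs_sub (σ i.succ) (σ 0)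
    have := hσ i.succ
    have := hσ 0
    linarith
  have hρc : ∀ i, c ≤ |ρ i| := fun i => by
    rw [hρdef]
    exact hσc _ _ (Fin.succ_ne_zero i)
  have hρρ : c ≤ |ρ 0 - ρ 1| := by
    rw [hρdef, hρdef, sub_sub_sub_cancel_right]
    exact hσc _ _ (by decide)
  have m0 : (0 : ℝ) ∈ Icc (0 : ℝ) 1 := ⟨le_rfl, zero_le_one⟩
  have m1 : (1 : ℝ) ∈ Icc (0 : ℝ) 1 := ⟨zero_le_one, le_rfl⟩
  have hσ0 := abs_le.1 (hσ 0)
  have hA : ∀ z ∈ Icc (-14 : ℝ) 14, |A z| ≤ M + M + δ := by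
    intro z hz
    have e1 := hAB z hz 0 m0
    rw [zero_mul, add_zero, mul_zero, add_zero] at e1
    have e2 := hf 0 m0 z ⟨by linarith [hz.1], by linarith [hz.2]⟩
    have e3 : |s 0 * σ 0| ≤ M := by
      rw [abs_mul]
      have := hs 0 m0
      have := hσ 0
      nlinarith [abs_nonneg (s 0), abs_nonneg (σ 0)]
    rw [abs_le] at e1 e2 e3 ⊢
    constructor <;> linarith [e1.1, e1.2, e2.1, e2.2, e3.1, e3.2]
  have hB : ∀ z ∈ Icc (-14 : ℝ) 14, |B z| ≤ (M + M + δ) + (M + M + δ) := by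
    intro z hz
    have e0 := hA z hz
    have e1 := hAB z hz 1 m1
    rw [one_mul, mul_one] at e1
    have e2 := hf 1 m1 (z + σ 0) ⟨by linarith [hz.1, hσ0.1], by linarith [hz.2, hσ0.2]⟩
    have e3 : |s 1 * σ 0| ≤ M := by
      rw [abs_mul]
      have := hs 1 m1
      have := hσ 0
      nlinarith [abs_nonneg (s 1), abs_nonneg (σ 0)]
    rw [abs_le] at e0 e1 e2 e3 ⊢
    constructor <;> linarith [e0.1, e0.2, e1.1, e1.2, e2.1, e2.2, e3.1, e3.2]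
  -- one line
  have HG : ∀ i : Fin 2, ∀ y ∈ Icc (-12 : ℝ) 12, ∃ α β : ℝ, ∀ τ ∈ Icc (0 : ℝ) 1,
      |A (y + τ * ρ i) + τ * B (y + τ * ρ i) + s τ * ρ i - (α + β * τ)| ≤ 2 * δ := by
    intro i y hy
    obtain ⟨α, β, hαβ⟩ := H i.succ y ⟨by linarith [hy.1], by linarith [hy.2]⟩
    refine ⟨α, β, fun τ hτ => ?_⟩
    have e1 := hαβ τ hτ
    have hr := abs_le.1 (hρ i)
    have hy' : y + τ * ρ i ∈ Icc (-14 : ℝ) 14 := by
      constructor <;> nlinarith [hy.1, hy.2, hτ.1, hτ.2, hr.1, hr.2]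
    have e2 := hAB _ hy' τ hτ
    have e3 : y + τ * ρ i + τ * σ 0 = y + τ * σ i.succ := by rw [hρdef]; ring
    rw [e3] at e2
    have e4 : s τ * ρ i = s τ * σ i.succ - s τ * σ 0 := by rw [hρdef]; ring
    rw [e4]
    rw [abs_le] at e1 e2 ⊢
    constructor <;> linarith [e1.1, e1.2, e2.1, e2.2]
  have HE : ∀ i, ∀ z ∈ Icc (-10 : ℝ) 10, ∀ τ t : ℝ, τ ∈ Icc (0 : ℝ) 1 →
      τ + 2 * t ∈ Icc (0 : ℝ) 1 →
      |sd A z (t * ρ i) + τ * sd B z (t * ρ i) +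
        2 * t * (B (z + 2 * (t * ρ i)) - B (z + t * ρ i)) + ρ i * sd s τ t| ≤ 4 * (2 * δ) := by
    intro i z hz τ t hτ hτt
    have hr := abs_le.1 (hρ i)
    obtain ⟨α, β, hαβ⟩ := HG i (z - τ * ρ i) (by
      constructor <;> nlinarith [hz.1, hz.2, hτ.1, hτ.2, hr.1, hr.2])
    have hτ1 : τ + t ∈ Icc (0 : ℝ) 1 :=
      ⟨by linarith [hτ.1, hτt.1], by linarith [hτ.2, hτt.2]⟩
    have e0 := hαβ τ hτ
    have e1 := hαβ (τ + t) hτ1
    have e2 := hαβ (τ + 2 * t) hτt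
    rw [show z - τ * ρ i + τ * ρ i = z by ring] at e0
    rw [show z - τ * ρ i + (τ + t) * ρ i = z + t * ρ i by ring] at e1
    rw [show z - τ * ρ i + (τ + 2 * t) * ρ i = z + 2 * (t * ρ i) by ring] at e2
    simp only [sd]
    rw [abs_le] at e0 e1 e2 ⊢
    constructor <;> linarith [e0.1, e0.2, e1.1, e1.2, e2.1, e2.2]
  obtain ⟨b, d, hbd⟩ := feq_B c hc hc2 N hN A B s ρ (2 * δ) _ hρ hρc hρρ hB HE
  obtain ⟨κ, hκ⟩ : ∃ κ, κ = 2 * k * δ := ⟨_, rfl⟩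
  have hκ0 : 0 ≤ κ := by rw [hκ]; positivity
  have hκ' : (N : ℝ) ^ 2 * (1024 / c ^ 2 * (2 * δ)) = κ := by rw [hκ, hk]; ring
  rw [hκ'] at hbd
  obtain ⟨S, hSdef⟩ : ∃ S : ℝ → ℝ, ∀ τ, S τ = s τ + d * τ ^ 2 := ⟨_, fun τ => rfl⟩
  have HJ : ∀ i, ∀ z ∈ Icc (-6 : ℝ) 6, ∀ τ t : ℝ, τ ∈ Icc (0 : ℝ) 1 →
      τ + 2 * t ∈ Icc (0 : ℝ) 1 →
      |sd A z (t * ρ i) + ρ i * sd S τ t| ≤ (8 + 12 * k) * δ := by
    intro i z hz τ t hτ hτt
    have e1 := HE i z ⟨by linarith [hz.1], by linarith [hz.2]⟩ τ t hτ hτt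
    have hr := abs_le.1 (hρ i)
    have ht1 : |t| ≤ 1 / 2 := by
      rw [abs_le]
      constructor <;> linarith [hτ.1, hτ.2, hτt.1, hτt.2]
    obtain ⟨w, hw⟩ : ∃ w, w = t * ρ i := ⟨_, rfl⟩
    have hw1 : |w| ≤ 1 := by
      rw [hw, abs_mul]
      have := hρ i
      nlinarith [abs_nonneg t, abs_nonneg (ρ i)]
    have hw2 := abs_le.1 hw1
    have q0 := hbd z ⟨by linarith [hz.1], by linarith [hz.2]⟩
    have q1 := hbd (z + w) ⟨by linarith [hz.1, hw2.1], by linarith [hz.2, hw2.2]⟩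
    have q2 := hbd (z + 2 * w) ⟨by linarith [hz.1, hw2.1], by linarith [hz.2, hw2.2]⟩
    have e2 := sd_affine B b d κ z w q0 q1 q2
    have e3 : |τ * sd B z w| ≤ 4 * κ := by
      rw [abs_mul, abs_of_nonneg hτ.1]
      nlinarith [hτ.1, hτ.2, abs_nonneg (sd B z w)]
    have e4 : |B (z + 2 * w) - B (z + w) - d * w| ≤ 2 * κ := by
      rw [abs_le] at q1 q2 ⊢
      constructor <;> linarith [q1.1, q1.2, q2.1, q2.2]
    have e5 : |2 * t * (B (z + 2 * w) - B (z + w) - d * w)| ≤ 2 * κ := by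
      rw [abs_mul, abs_mul, abs_two]
      nlinarith [abs_nonneg t, abs_nonneg (B (z + 2 * w) - B (z + w) - d * w)]
    have e6 : ρ i * sd S τ t = ρ i * sd s τ t + 2 * t * (d * w) := by
      simp only [sd, hSdef, hw]
      ring
    have e7 : (8 + 12 * k) * δ = 4 * (2 * δ) + 6 * κ := by rw [hκ]; ring
    rw [e7, e6, ← hw]
    rw [← hw] at e1
    rw [abs_le] at e1 e3 e5 ⊢
    constructor <;> linarith [e1.1, e1.2, e3.1, e3.2, e5.1, e5.2]
  have hS : ∀ τ ∈ Icc (0 : ℝ) 1, |S τ| ≤ (M + M + δ) + |d| := by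
    intro τ hτ
    rw [hSdef]
    refine (abs_add_le _ _).trans ?_
    have h1 := hs τ hτ
    have h0 : 0 ≤ M := (abs_nonneg _).trans h1
    have h2 : |d * τ ^ 2| ≤ |d| := by
      rw [abs_mul, abs_of_nonneg (sq_nonneg τ)]
      have : τ ^ 2 ≤ 1 := by nlinarith [hτ.1, hτ.2]
      nlinarith [abs_nonneg d]
    linarith
  have hA' : ∀ z ∈ Icc (-14 : ℝ) 14, |A z| ≤ (M + M + δ) + |d| := fun z hz =>
    (hA z hz).trans (by linarith [abs_nonneg d])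
  obtain ⟨K', hK', ⟨a, c', hac⟩, ⟨s₀, s₁, hss⟩⟩ := feq_A c hc hc2 N hN A S ρ ((8 + 12 * k) * δ) _
    (by positivity) hρ hρc hρρ hA' hS HJ
  rw [← hK] at hK'
  subst hK'
  obtain ⟨eA, heA⟩ : ∃ e, e = (N : ℝ) ^ 2 * (K' * ((8 + 12 * k) * δ)) := ⟨_, rfl⟩
  obtain ⟨eS, heS⟩ : ∃ e, e = (N : ℝ) ^ 2 * ((1 + K') / c * ((8 + 12 * k) * δ)) := ⟨_, rfl⟩
  have heA0 : 0 ≤ eA := by rw [heA]; positivity
  have heS0 : 0 ≤ eS := by rw [heS]; positivity
  rw [← heA] at hac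
  rw [← heS] at hss
  have hC : (1 + 2 * k + (N : ℝ) ^ 2 * (K' * (8 + 12 * k)) +
      (N : ℝ) ^ 2 * ((1 + K') / c * (8 + 12 * k))) * δ = δ + κ + eA + eS := by
    rw [heA, heS, hκ]; ring
  rw [hC]
  have hs' : ∀ τ ∈ Icc (0 : ℝ) 1, |s τ - (s₀ + s₁ * τ - d * τ ^ 2)| ≤ eS := by
    intro τ hτ
    have e := hss τ hτ
    rw [hSdef] at e
    have : s τ - (s₀ + s₁ * τ - d * τ ^ 2) = s τ + d * τ ^ 2 - (s₀ + s₁ * τ) := by ring
    rw [this]
    exact e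
  refine ⟨a - σ 0 * s₀, b - c' * σ 0 - s₁ * σ 0, c', d, s₀, s₁, ?_, fun τ hτ => ?_⟩
  · intro τ hτ z hz
    have hy : z - τ * σ 0 ∈ Icc (-2 : ℝ) 2 := by
      constructor <;> nlinarith [hz.1, hz.2, hτ.1, hτ.2, hσ0.1, hσ0.2]
    have e1 := hAB (z - τ * σ 0) ⟨by linarith [hy.1], by linarith [hy.2]⟩ τ hτ
    rw [show z - τ * σ 0 + τ * σ 0 = z by ring] at e1
    have e2 := hac _ hy
    have e3 := hbd (z - τ * σ 0) ⟨by linarith [hy.1], by linarith [hy.2]⟩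
    have e4 := hs' τ hτ
    have e5 : |τ * (B (z - τ * σ 0) - (b + d * (z - τ * σ 0)))| ≤ κ := by
      rw [abs_mul, abs_of_nonneg hτ.1]
      nlinarith [hτ.1, hτ.2, abs_nonneg (B (z - τ * σ 0) - (b + d * (z - τ * σ 0)))]
    have e6 : |(s τ - (s₀ + s₁ * τ - d * τ ^ 2)) * σ 0| ≤ eS := by
      rw [abs_mul]
      have := hσ 0
      nlinarith [abs_nonneg (s τ - (s₀ + s₁ * τ - d * τ ^ 2)), abs_nonneg (σ 0)]
    rw [abs_le] at e1 e2 e5 e6 ⊢
    constructor <;> nlinarith [e1.1, e1.2, e2.1, e2.2, e5.1, e5.2, e6.1, e6.2]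
  · exact (hs' τ hτ).trans (by linarith)

end Pool.KAL
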